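import Pool.Agent.H25.GD.Targets

/-!
# MP_81a758_an, genus at most two: row W_KEY, the intersection number as an integral
-/

set_option autoImplicit false

namespace Pool.Agent.H34.GD

open Pool.Agent.H44.DU MeasureTheory

/-- The sum of the corner terms of a triangle. -/
lemma sum_ct {n : ℕ} (S : Surf n) (t t' : ℝ) (p q : Fin n → ℝ → ℝ) (i : Fin n) :
    ∑ k : Fin 3, S.ct t t' p q (i, k) =
      (S.cc t p (i, 1) * S.cc t' q (i, 0) - S.cc t p (i, 0) * S.cc t' q (i, 1)) / 2 := by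
  have e : (2 : Fin 3) + 1 = 0 := by decide
  have e1 : (1 : Fin 3) + 1 = 2 := by decide
  have e0 : (0 : Fin 3) + 1 = 1 := by decide
  rw [Fin.sum_univ_three]
  simp only [Surf.ct, Surf.cc, Surf.P, Surf.Q, e, e0, e1]
  ring

theorem pf_W_KEY (hM : W_MEA) (hS : W_SID) (hT : W_TRI) : W_KEY := by
  intro n S t t' p q htt hp hq
  choose ν hν1 hν2 hν3 using fun i => hM (q i) (hq.mono i) (hq.cont i)
  choose l h h1 h2 h3 h4 using fun i =>
    hT n S t t' p ν i htt (hp.mono i) (hp.cont i) (hν2 i) (hν3 i)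
  refine ⟨ν, l, h, hν1, hν2, hν3, h1, fun e i => h2 i e, h3, ?_⟩
  have hglS : ∑ s, S.SI t t' p ν (S.gl s) = ∑ s, S.SI t t' p ν s :=
    Equiv.sum_comp (Function.Involutive.toPerm S.gl S.gl_gl) (fun s => S.SI t t' p ν s)
  have hglC : ∑ s, S.ct t t' p q (S.gl s) = ∑ s, S.ct t t' p q s :=
    Equiv.sum_comp (Function.Involutive.toPerm S.gl S.gl_gl) (fun s => S.ct t t' p q s)
  have hsum : ∑ s, S.SI t t' p ν s = ∑ s, S.ct t t' p q s := by
    have h5 := Finset.sum_congr rfl (fun s (_ : s ∈ Finset.univ) =>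
      hS n S t t' p q ν hp hq hν1 hν2 hν3 s)
    rw [Finset.sum_add_distrib, Finset.sum_add_distrib, hglS, hglC] at h5
    linarith
  rw [Fintype.sum_prod_type, Fintype.sum_prod_type] at hsum
  rw [Finset.sum_congr rfl fun i _ => h4 i, Finset.sum_congr rfl fun i _ =>
    sum_ct S t t' p q i] at hsum
  rw [hsum, Surf.Om, Finset.mul_sum]
  refine Finset.sum_congr rfl fun i _ => ?_
  ring

end Pool.Agent.H34.GD
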