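import Pool.Agent.H25.GD.Targets

/-!
# MP_81a758_an, genus at most two: row W_SID, the integral along a side is odd up to corner terms
-/

set_option autoImplicit false

namespace Pool.Agent.H34.GD

open Pool.Agent.H44.DU MeasureTheory

lemma mv_strictMono {n : ℕ} (S : Surf n) (t : ℝ) (s : Side n) : StrictMono (S.mv t s) :=
  fun _ _ h => (S.mv_lt_iff t s).2 h

/-- The leaf coordinate of the point of a side. -/
lemma xi_pt {n : ℕ} (S : Surf n) (t t' : ℝ) (s : Side n) (y : ℝ) :
    xi t (S.pt t' s y) =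
      xi t (S.P s) + S.lam t' s y * (xi t (S.Q s) - xi t (S.P s)) := by
  rw [Surf.pt, xi_add, xi_mul, xi_sub]

/-- The point of the side and its image under the gluing. -/
lemma xi_pt_gl {n : ℕ} (S : Surf n) (t t' : ℝ) (s : Side n) (y : ℝ)
    (h : xi t' (S.Q s) < xi t' (S.P s)) :
    xi t (S.pt t' (S.gl s) (S.mv t' s y)) = S.mv t s (xi t (S.pt t' s y)) := by
  have h1 : S.lam t' (S.gl s) (S.mv t' s y) = 1 - S.lam t' s y := by
    rw [Surf.lam, Surf.lam, Surf.xi_P_gl, Surf.xi_Q_gl]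
    simp only [Surf.mv]
    have ha := (S.a_pos s).ne'
    have hd : xi t' (S.P s) - xi t' (S.Q s) ≠ 0 := (sub_pos.2 h).ne'
    have hd' : S.a s * xi t' (S.Q s) + xi t' (S.b s) - (S.a s * xi t' (S.P s) + xi t' (S.b s)) ≠ 0 := by
      have : S.a s * xi t' (S.Q s) + xi t' (S.b s) - (S.a s * xi t' (S.P s) + xi t' (S.b s)) =
        -(S.a s * (xi t' (S.P s) - xi t' (S.Q s))) := by ring
      rw [this]
      exact neg_ne_zero.2 (mul_ne_zero ha hd)
    rw [div_eq_iff hd', eq_comm, sub_mul, one_mul, div_mul_eq_mul_div, eq_comm, eq_sub_iff_add_eq]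
    have : (xi t' (S.P s) - y) *
        (S.a s * xi t' (S.Q s) + xi t' (S.b s) - (S.a s * xi t' (S.P s) + xi t' (S.b s))) =
        (-(S.a s * (xi t' (S.P s) - y))) * (xi t' (S.P s) - xi t' (S.Q s)) := by ring
    rw [this, mul_div_assoc, div_self hd, mul_one]
    ring
  rw [xi_pt, xi_pt, h1, Surf.xi_P_gl, Surf.xi_Q_gl]
  simp only [Surf.mv]
  ring

/-- The function of the leaves along the side. -/
lemma glue_p {n : ℕ} (S : Surf n) (t : ℝ) (p : Fin n → ℝ → ℝ) (hp : S.IM t p) (s : Side n)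
    (x : ℝ) (h1 : min (xi t (S.P s)) (xi t (S.Q s)) ≤ x)
    (h2 : x ≤ max (xi t (S.P s)) (xi t (S.Q s))) :
    p (S.gl s).1 (S.mv t s x) =
      p s.1 x + (p (S.gl s).1 (xi t (S.Q (S.gl s))) - p s.1 (xi t (S.P s))) := by
  rcases le_total (xi t (S.Q s)) (xi t (S.P s)) with h | h
  · rw [min_eq_right h] at h1
    rw [max_eq_left h] at h2
    have h3 := hp.glue s x (xi t (S.P s)) h1 h2 le_rfl
    rw [← Surf.xi_Q_gl] at h3
    linarith
  · rw [min_eq_left h] at h1
    rw [max_eq_right h] at h2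
    have h3 := hp.glue (S.gl s) (xi t (S.Q (S.gl s))) (S.mv t s x) le_rfl
      (by rw [Surf.xi_Q_gl]; exact (S.mv_le_iff t s).2 h1)
      (by rw [Surf.xi_P_gl]; exact (S.mv_le_iff t s).2 h2)
    rw [S.gl_gl, Surf.mv_gl, Surf.xi_Q_gl, Surf.mv_gl] at h3
    rw [Surf.xi_Q_gl]
    linarith

/-- The measures on the two sides. -/
lemma measure_gl {n : ℕ} (S : Surf n) (t : ℝ) (q : Fin n → ℝ → ℝ) (ν : Fin n → Measure ℝ)
    (hq : S.IM t q) (hν : ∀ i, Dist (q i) (ν i)) (hf : ∀ i, IsLocallyFiniteMeasure (ν i))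
    (s : Side n) :
    (ν (S.gl s).1).restrict
        (Set.Ioc (S.mv t s (xi t (S.Q s))) (S.mv t s (xi t (S.P s)))) =
      ((ν s.1).restrict (Set.Ioc (xi t (S.Q s)) (xi t (S.P s)))).map (S.mv t s) := by
  have := hf (S.gl s).1
  have hm : Measurable (S.mv t s) := (mv_strictMono S t s).monotone.measurable
  have hmono : Monotone (S.mv t (S.gl s)) := (mv_strictMono S t (S.gl s)).monotone
  refine Measure.ext_of_Ioc _ _ fun a b _ => ?_
  rw [Measure.restrict_apply measurableSet_Ioc, Measure.map_apply hm measurableSet_Ioc,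
    Measure.restrict_apply (hm measurableSet_Ioc), Set.Ioc_inter_Ioc]
  have hpre : S.mv t s ⁻¹' Set.Ioc a b ∩ Set.Ioc (xi t (S.Q s)) (xi t (S.P s)) =
      Set.Ioc (max (S.mv t (S.gl s) a) (xi t (S.Q s))) (min (S.mv t (S.gl s) b) (xi t (S.P s))) := by
    rw [← Set.Ioc_inter_Ioc]
    congr 1
    ext x
    simp only [Set.mem_preimage, Set.mem_Ioc]
    rw [← S.mv_lt_iff t (S.gl s) (x := a), ← S.mv_le_iff t (S.gl s) (y := b), S.mv_gl]
  rw [hpre]
  have e1 : max (S.mv t (S.gl s) a) (xi t (S.Q s)) =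
      S.mv t (S.gl s) (max a (S.mv t s (xi t (S.Q s)))) := by
    rw [hmono.map_max, S.mv_gl]
  have e2 : min (S.mv t (S.gl s) b) (xi t (S.P s)) =
      S.mv t (S.gl s) (min b (S.mv t s (xi t (S.P s)))) := by
    rw [hmono.map_min, S.mv_gl]
  set A := max a (S.mv t s (xi t (S.Q s)))
  set B := min b (S.mv t s (xi t (S.P s)))
  show ν (S.gl s).1 (Set.Ioc A B) = _
  rcases le_or_gt A B with hAB | hAB
  · have hx : xi t (S.Q s) ≤ S.mv t (S.gl s) A := by
      rw [← e1]
      exact le_max_right _ _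
    have hy : S.mv t (S.gl s) B ≤ xi t (S.P s) := by
      rw [← e2]
      exact min_le_right _ _
    have hxy : S.mv t (S.gl s) A ≤ S.mv t (S.gl s) B := hmono hAB
    have h3 := hq.glue s _ _ hx hxy hy
    rw [S.mv_gl', S.mv_gl'] at h3
    rw [hν _ _ _ hAB, h3, e1, e2, hν _ _ _ hxy]
  · rw [Set.Ioc_eq_empty (not_lt.2 hAB.le), e1, e2, Set.Ioc_eq_empty (not_lt.2 (hmono hAB.le)),
      measure_empty, measure_empty]

/-- The statement for the sides which leave the triangle. -/
lemma side_main {n : ℕ} (S : Surf n) (t t' : ℝ) (p q : Fin n → ℝ → ℝ) (ν : Fin n → Measure ℝ)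
    (hp : S.IM t p) (hq : S.IM t' q) (hν : ∀ i, Dist (q i) (ν i))
    (hf : ∀ i, IsLocallyFiniteMeasure (ν i)) (s : Side n)
    (h : xi t' (S.Q s) ≤ xi t' (S.P s)) :
    S.SI t t' p ν (S.gl s) + S.SI t t' p ν s = S.ct t t' p q (S.gl s) + S.ct t t' p q s := by
  rcases h.eq_or_lt with h0 | h0
  · simp only [Surf.SI, Surf.ct, Surf.xi_P_gl, Surf.xi_Q_gl, h0, intervalIntegral.integral_same,
      sub_self, mul_zero, zero_div]
  · have := hf s.1
    set κ := p (S.gl s).1 (xi t (S.Q (S.gl s))) - p s.1 (xi t (S.P s)) with hκ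
    set Q := xi t' (S.Q s) with hQ
    set P := xi t' (S.P s) with hP
    have hcont : Continuous (fun y => p s.1 (xi t (S.pt t' s y))) := by
      refine (hp.cont s.1).comp ?_
      simp only [xi_pt, Surf.lam]
      fun_prop
    have hint : IntegrableOn (fun y => p s.1 (xi t (S.pt t' s y))) (Set.Ioc Q P) (ν s.1) :=
      (hcont.continuousOn.integrableOn_Icc).mono_set Set.Ioc_subset_Icc_self
    have hlam : ∀ y ∈ Set.Ioc Q P, 0 ≤ S.lam t' s y ∧ S.lam t' s y ≤ 1 := by
      intro y hy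
      have hd : 0 < P - Q := sub_pos.2 h0
      constructor
      · exact div_nonneg (sub_nonneg.2 hy.2) hd.le
      · rw [Surf.lam, ← hP, ← hQ, div_le_one hd]
        linarith [hy.1]
    have hF : ∀ y ∈ Set.Ioc Q P, p (S.gl s).1 (xi t (S.pt t' (S.gl s) (S.mv t' s y))) =
        p s.1 (xi t (S.pt t' s y)) + κ := by
      intro y hy
      obtain ⟨l0, l1⟩ := hlam y hy
      rw [xi_pt_gl S t t' s y h0]
      refine glue_p S t p hp s _ ?_ ?_
      · rw [xi_pt]
        rcases le_total (xi t (S.P s)) (xi t (S.Q s)) with h2 | h2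
        · rw [min_eq_left h2]
          have := mul_nonneg l0 (sub_nonneg.2 h2)
          linarith
        · rw [min_eq_right h2]
          have := mul_le_mul_of_nonneg_right l1 (sub_nonneg.2 h2)
          linarith
      · rw [xi_pt]
        rcases le_total (xi t (S.P s)) (xi t (S.Q s)) with h2 | h2
        · rw [max_eq_right h2]
          have := mul_le_mul_of_nonneg_right l1 (sub_nonneg.2 h2)
          linarith
        · rw [max_eq_left h2]
          have := mul_nonneg l0 (sub_nonneg.2 h2)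
          linarith
    have hSs : S.SI t t' p ν s = ∫ y in Set.Ioc Q P, p s.1 (xi t (S.pt t' s y)) ∂(ν s.1) := by
      rw [Surf.SI]
      exact intervalIntegral.integral_of_le h
    have hνreal : (ν s.1).real (Set.Ioc Q P) = q s.1 P - q s.1 Q := by
      rw [Measure.real, hν s.1 Q P h, ENNReal.toReal_ofReal (sub_nonneg.2 (hq.mono s.1 h))]
    have hme : MeasurableEmbedding (S.mv t' s) := by
      have hc : Continuous (S.mv t' s) := by
        unfold Surf.mv
        fun_prop
      exact hc.measurableEmbedding (mv_strictMono S t' s).injective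
    have hSg : S.SI t t' p ν (S.gl s) =
        -(∫ y in Set.Ioc Q P, (p s.1 (xi t (S.pt t' s y)) + κ) ∂(ν s.1)) := by
      rw [Surf.SI, Surf.xi_Q_gl, Surf.xi_P_gl, intervalIntegral.integral_symm,
        intervalIntegral.integral_of_le ((S.mv_le_iff t' s).2 h),
        measure_gl S t' q ν hq hν hf s, hme.integral_map]
      congr 1
      exact setIntegral_congr_fun measurableSet_Ioc hF
    have hcst : IntegrableOn (fun _ : ℝ => κ) (Set.Ioc Q P) (ν s.1) :=
      integrableOn_const measure_Ioc_lt_top.ne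
    rw [hSg, hSs, integral_add hint hcst, setIntegral_const, hνreal]
    have c1 : p (S.gl s).1 (xi t (S.P (S.gl s))) = p s.1 (xi t (S.Q s)) + κ := by
      rw [Surf.xi_P_gl]
      exact glue_p S t p hp s _ (min_le_right _ _) (le_max_right _ _)
    have c2 : p (S.gl s).1 (xi t (S.Q (S.gl s))) = p s.1 (xi t (S.P s)) + κ := by
      rw [hκ]
      ring
    have c3 : q (S.gl s).1 (xi t' (S.Q (S.gl s))) - q (S.gl s).1 (xi t' (S.P (S.gl s))) =
        q s.1 P - q s.1 Q := by
      rw [Surf.xi_Q_gl, Surf.xi_P_gl]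
      exact hq.glue s _ _ le_rfl h le_rfl
    rw [Surf.ct, Surf.ct, c1, c2, ← hP, ← hQ, smul_eq_mul]
    have c4 : q (S.gl s).1 (xi t' (S.P (S.gl s))) - q (S.gl s).1 (xi t' (S.Q (S.gl s))) =
        -(q s.1 P - q s.1 Q) := by linarith
    rw [c4]
    ring

theorem pf_W_SID : W_SID := by
  intro n S t t' p q ν hp hq hν hf _ s
  rcases le_total (xi t' (S.Q s)) (xi t' (S.P s)) with h | h
  · exact side_main S t t' p q ν hp hq hν hf s h
  · have h1 := side_main S t t' p q ν hp hq hν hf (S.gl s)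
      (by rw [Surf.xi_Q_gl, Surf.xi_P_gl]; exact (S.mv_le_iff t' s).2 h)
    rw [S.gl_gl] at h1
    linarith

end Pool.Agent.H34.GD
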